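import Mathlib

namespace Pool.Agent.H.MP_c1a8be_al

open Filter Topology List

variable {β : Type} [DecidableEq β]

/-- Number of occurrences of `l` as a subword of `x`: the number of suffixes of `x`
that begin with `l`. -/
def occ (l x : List β) : ℕ := x.tails.countP (fun t => decide (l <+: t))

lemma occ_nil (l : List β) : occ l [] = if l = [] then 1 else 0 := by
  by_cases h : l = [] <;> simp [occ, h]

lemma occ_cons (l : List β) (y : β) (x : List β) :
    occ l (y :: x) = (if l <+: y :: x then 1 else 0) + occ l x := by
  simp only [occ, tails_cons, countP_cons, decide_eq_true_eq]; omega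

lemma occ_left [Fintype β] (l x : List β) :
    occ l x = ∑ s, occ (s :: l) x + if l <+: x then 1 else 0 := by
  induction x with
  | nil => simp [occ_nil]
  | cons y x ih =>
    simp only [occ_cons, Finset.sum_add_distrib, cons_prefix_cons]
    have : ∑ s : β, (if s = y ∧ l <+: x then 1 else 0) = if l <+: x then 1 else 0 := by
      by_cases h : l <+: x <;> simp [h]
    rw [this]; omega

lemma pre_step [Fintype β] (l z : List β) :
    (if l <+: z then 1 else 0) =
      ∑ s, (if l ++ [s] <+: z then 1 else 0) + if l = z then 1 else 0 := by
  by_cases h : l <+: z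
  · obtain ⟨t, rfl⟩ := h
    rcases t with _ | ⟨u, t⟩
    · have : ∀ s, ¬ (l ++ [s] <+: l) := fun s h => by have := h.length_le; simp at this
      simp [this]
    · simp [prefix_append_right_inj, cons_prefix_cons]
  · have : ∀ s, ¬ (l ++ [s] <+: z) := fun s h' => h ((prefix_append _ _).trans h')
    have h2 : l ≠ z := fun e => h (e ▸ prefix_rfl)
    simp [h, this, h2]

lemma occ_right [Fintype β] (l x : List β) :
    occ l x = ∑ s, occ (l ++ [s]) x + if l <:+ x then 1 else 0 := by
  induction x with
  | nil => simp [occ_nil]
  | cons y x ih =>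
    simp only [occ_cons, Finset.sum_add_distrib]
    rw [pre_step l (y :: x)]
    have : (if l <:+ y :: x then 1 else 0) =
        (if l = y :: x then 1 else 0) + if l <:+ x then 1 else 0 := by
      simp only [suffix_cons_iff]
      by_cases h1 : l = y :: x
      · have : ¬ l <:+ x := fun h => by have := h.length_le; simp [h1] at this
        simp [h1, h1 ▸ this]
      · simp [h1]
    rw [this]; omega

lemma occ_super (l : List β) (hl : l ≠ []) (x y : List β) :
    occ l x + occ l y ≤ occ l (x ++ y) := by
  induction x with
  | nil => simp [occ_nil, hl]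
  | cons z x ih =>
    simp only [cons_append, occ_cons]
    by_cases h : l <+: z :: x
    · have : l <+: z :: (x ++ y) := h.trans (prefix_append (z :: x) y)
      simp [h, this]; omega
    · simp only [h, if_false]; omega

lemma occ_sub' (l x y : List β) :
    occ l (x ++ y) ≤ occ l x + occ l y + min x.length l.length := by
  induction x with
  | nil => simp
  | cons z x ih =>
    simp only [cons_append, occ_cons, length_cons]
    by_cases h : l.length ≤ x.length + 1
    · have : l <+: z :: (x ++ y) ↔ l <+: z :: x := by
        refine ⟨fun h' => ?_, fun h' => h'.trans (prefix_append (z :: x) y)⟩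
        exact prefix_of_prefix_length_le h' (prefix_append (z :: x) y) (by simpa using h)
      simp only [this]; omega
    · split_ifs <;> omega

lemma occ_sub (l x y : List β) : occ l (x ++ y) ≤ occ l x + occ l y + l.length :=
  (occ_sub' l x y).trans (by omega)

lemma occ_zero {l x : List β} (h : ¬ l <:+: x) : occ l x = 0 := by
  unfold occ
  rw [countP_eq_zero]
  intro t ht
  simp only [decide_eq_true_eq]
  exact fun h' => h (h'.isInfix.trans ((mem_tails _ _).1 ht).isInfix)

lemma occ_le (l x : List β) : occ l x ≤ x.length + 1 := by
  unfold occ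
  exact countP_le_length.trans (by simp)

lemma tend_of_bdd (u v : ℕ → ℝ) (B L : ℝ) (h : ∀ n, 1 ≤ n → |u n - v n| ≤ B)
    (hv : Tendsto (fun n => v n / n) atTop (𝓝 L)) : Tendsto (fun n => u n / n) atTop (𝓝 L) := by
  have h0 : Tendsto (fun n : ℕ => (u n - v n) / n) atTop (𝓝 0) := by
    refine squeeze_zero_norm' ?_ (tendsto_const_div_atTop_nhds_zero_nat B)
    filter_upwards [eventually_ge_atTop 1] with n hn
    rw [Real.norm_eq_abs, abs_div, Nat.abs_cast]
    exact div_le_div_of_nonneg_right (h n hn) (by positivity)
  have := h0.add hv
  simp only [zero_add] at this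
  refine this.congr (fun n => by ring)

lemma sandwich (l : List β) (hl : l ≠ []) (U Z V : List β) :
    |(occ l (U ++ Z ++ V) : ℝ) - occ l Z| ≤ occ l U + occ l V + 2 * l.length := by
  have a1 := occ_super l hl U Z
  have a2 := occ_super l hl (U ++ Z) V
  have a3 := occ_sub l U Z
  have a4 := occ_sub l (U ++ Z) V
  have b1 : (occ l Z : ℝ) ≤ occ l (U ++ Z ++ V) := by exact_mod_cast (by omega)
  have b2 : (occ l (U ++ Z ++ V) : ℝ) ≤ occ l Z + (occ l U + occ l V + 2 * l.length) := by
    exact_mod_cast (by omega)
  rw [abs_of_nonneg (by linarith)]; linarith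

lemma lim_pow (l : List β) (hl : l ≠ []) (C : List β) :
    ∃ L, Tendsto (fun n : ℕ => (occ l (replicate n C).flatten : ℝ) / n) atTop (𝓝 L) := by
  have hs : Subadditive (fun n : ℕ => -(occ l (replicate n C).flatten : ℝ)) := by
    intro m n
    have := occ_super l hl (replicate m C).flatten (replicate n C).flatten
    rw [← flatten_append, ← replicate_add] at this
    have : (occ l (replicate m C).flatten : ℝ) + occ l (replicate n C).flatten ≤
      occ l (replicate (m + n) C).flatten := by exact_mod_cast this
    simp only; linarith
  have hb : BddBelow (Set.range fun n : ℕ => -(occ l (replicate n C).flatten : ℝ) / n) := by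
    refine ⟨-(C.length + 1), ?_⟩
    rintro _ ⟨n, rfl⟩
    rcases Nat.eq_zero_or_pos n with rfl | hn
    · have : (0 : ℝ) ≤ C.length := by positivity
      simp; linarith
    · have := occ_le l (replicate n C).flatten
      simp only [length_flatten, map_replicate, sum_replicate, smul_eq_mul] at this
      have h1 : (occ l (replicate n C).flatten : ℝ) ≤ n * C.length + 1 := by exact_mod_cast this
      have h2 : (1 : ℝ) ≤ n := by exact_mod_cast hn
      simp only
      rw [le_div_iff₀ (by positivity)]
      nlinarith
  refine ⟨-hs.lim, ?_⟩
  have := (hs.tendsto_lim hb).neg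
  refine this.congr (fun n => by ring)

def Big (K : ℕ) (l : List β) : Prop :=
  ∃ x y : β, x ≠ y ∧ ∃ k, K ≤ k ∧ (x :: replicate k y <:+: l ∨ replicate k y ++ [x] <:+: l)

lemma Big.len {K : ℕ} {l : List β} (h : Big K l) : K < l.length := by
  obtain ⟨x, y, -, k, hk, h | h⟩ := h <;> have := h.length_le <;> simp at this <;> omega

omit [DecidableEq β] in
lemma per_pow (C : List β) (n : ℕ) : HasPeriod (replicate n C).flatten C.length := by
  rcases n with _ | n
  · simp
  · unfold HasPeriod
    have : take C.length (replicate (n + 1) C).flatten = C := by simp [replicate_succ]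
    rw [this, ← flatten_cons, ← replicate_succ, replicate_succ' (n := n + 1), flatten_append]
    exact prefix_append _ _

omit [DecidableEq β] in
lemma per_inf {u w : List β} {p : ℕ} (per : HasPeriod w p) (h : u <:+: w) : HasPeriod u p := by
  obtain ⟨s, t, rfl⟩ := h
  exact per.factor

lemma big_not {K : ℕ} {l : List β} (h : Big K l) (C : List β) (hC : C.length ≤ K) (n : ℕ) :
    ¬ l <:+: (replicate n C).flatten := by
  intro hi
  rcases Nat.eq_zero_or_pos C.length with h0 | h0
  · have := hi.length_le
    have := h.len
    simp only [length_flatten, map_replicate, sum_replicate, smul_eq_mul, h0] at *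
    omega
  obtain ⟨x, y, hxy, k, hk, h | h⟩ := h
  · have := hasPeriod_iff_getElem?.1 (per_inf (per_pow C n) (h.trans hi)) 0 (by simp; omega)
    obtain ⟨p, hp⟩ : ∃ p, C.length = p + 1 := ⟨C.length - 1, by omega⟩
    simp [hp, getElem?_replicate, show p < k by omega] at this
    exact hxy this
  · have := hasPeriod_iff_getElem?.1 (per_inf (per_pow C n) (h.trans hi)) (k - C.length)
      (by simp; omega)
    rw [show k - C.length + C.length = k by omega, getElem?_append_left (by simp; omega)] at this
    simp [getElem?_replicate, show k - C.length < k by omega] at this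
    exact hxy this.symm

/-- `l` is non-self-overlapping: nonempty, and no nonempty proper prefix is a suffix. -/
def NSO (l : List β) : Prop :=
  l ≠ [] ∧ ∀ u : List β, u ≠ [] → u.length < l.length → u <+: l → ¬ u <:+ l

omit [DecidableEq β] in
lemma nso_cons (a : β) (m : List β) (h : a ∉ m) : NSO (a :: m) := by
  refine ⟨by simp, fun u hu hl hp hs => ?_⟩
  rcases u with _ | ⟨v, u⟩
  · exact hu rfl
  rw [cons_prefix_cons] at hp
  rcases suffix_cons_iff.1 hs with e | e
  · simp [e] at hl
  · exact h (e.subset (by simp [hp.1]))

omit [DecidableEq β] in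
lemma nso_snoc (a : β) (m : List β) (h : a ∉ m) : NSO (m ++ [a]) := by
  refine ⟨by simp, fun u hu hl hp hs => ?_⟩
  have h1 : u <+: m := prefix_of_prefix_length_le hp (prefix_append _ _) (by simp at hl; omega)
  have h2 : [a] <:+ u := suffix_of_suffix_length_le (suffix_append _ _) hs
    (by have := length_pos_iff.2 hu; simp; omega)
  exact h (h1.subset (h2.subset (by simp)))

end Pool.Agent.H.MP_c1a8be_al
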